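import Pool.Agent.Helper70.GB.Types
import Pool.Agent.Helper15.GB.Top

/-!
# MP_02f2ca_gt : pattern sets are regular open with null frontier (module A9b)
-/

open Set MeasureTheory Filter Topology

namespace GB

namespace PatReg

/-- Translates of a set. -/
def tr (t : ℝ) (A : Set ℝ) : Set ℝ := (fun x => x + t) '' A

theorem mem_tr {t : ℝ} {A : Set ℝ} {x : ℝ} : x ∈ tr t A ↔ x - t ∈ A := by
  constructor
  · rintro ⟨y, hy, rfl⟩
    simpa using hy
  · intro h
    exact ⟨x - t, h, by simp⟩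

theorem tr_eq (t : ℝ) (A : Set ℝ) : tr t A = (Homeomorph.addRight t) '' A := rfl

theorem closure_tr (t : ℝ) (A : Set ℝ) : closure (tr t A) = tr t (closure A) := by
  rw [tr_eq, tr_eq, ← Homeomorph.image_closure]

theorem interior_tr (t : ℝ) (A : Set ℝ) : interior (tr t A) = tr t (interior A) := by
  rw [tr_eq, tr_eq, ← Homeomorph.image_interior]

theorem frontier_tr (t : ℝ) (A : Set ℝ) : frontier (tr t A) = tr t (frontier A) := by
  rw [tr_eq, tr_eq, ← Homeomorph.image_frontier]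

theorem volume_tr (t : ℝ) (A : Set ℝ) : volume (tr t A) = volume A := by
  unfold tr
  rw [Set.image_add_right]
  exact measure_preimage_add_right volume (-t) A

theorem tr_inter (t : ℝ) (A B : Set ℝ) : tr t (A ∩ B) = tr t A ∩ tr t B := by
  ext x
  simp only [mem_tr, mem_inter_iff]

theorem tr_Ico (t a b : ℝ) : tr t (Ico a b) = Ico (a + t) (b + t) := by
  ext x
  simp only [mem_tr, mem_Ico]
  constructor
  · rintro ⟨h, h'⟩
    exact ⟨by linarith, by linarith⟩
  · rintro ⟨h, h'⟩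
    exact ⟨by linarith, by linarith⟩

theorem Per.nat {A : Set ℝ} (hA : Per A) (m : ℕ) (x : ℝ) : x + m ∈ A ↔ x ∈ A := by
  induction m with
  | zero => simp
  | succ m ih =>
    rw [← ih, ← hA (x + m)]
    push_cast
    rw [add_assoc]

theorem Per.int {A : Set ℝ} (hA : Per A) (m : ℤ) (x : ℝ) : x + m ∈ A ↔ x ∈ A := by
  obtain ⟨n, rfl | rfl⟩ := m.eq_nat_or_neg
  · exact_mod_cast Per.nat hA n x
  · have := Per.nat hA n (x + ((-n : ℤ) : ℝ))
    rw [← this]
    push_cast
    rw [neg_add_cancel_right]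

theorem Per.tr_int {A : Set ℝ} (hA : Per A) (m : ℤ) : tr m A = A := by
  ext x
  rw [mem_tr]
  have := Per.int hA m (x - m)
  rw [sub_add_cancel] at this
  exact this.symm

theorem Per.vol_Ico {A : Set ℝ} (hA : Per A) (c : ℝ) :
    volume (A ∩ Ico c (c + 1)) = volume (A ∩ Ico 0 1) := by
  have h1 := Int.le_ceil c
  have h2 := Int.ceil_lt_add_one c
  set m : ℤ := ⌈c⌉
  have e1 : Ico c (c + 1) ∩ Ico c m = Ico c m := by
    rw [Ico_inter_Ico, max_self, min_eq_right h2.le]
  have e2 : Ico c (c + 1) \ Ico c m = Ico (m : ℝ) (c + 1) := by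
    ext x
    simp only [Set.mem_sdiff, mem_Ico, not_and, not_lt]
    constructor
    · rintro ⟨h3, h4⟩
      exact ⟨h4 h3.1, h3.2⟩
    · rintro ⟨h3, h4⟩
      exact ⟨⟨by linarith, h4⟩, fun _ => h3⟩
  have h3 := measure_inter_add_sdiff (μ := (volume : Measure ℝ)) (A ∩ Ico c (c + 1))
    (measurableSet_Ico (a := c) (b := (m : ℝ)))
  rw [inter_assoc, e1, inter_sdiff_assoc, e2] at h3
  have e3 : Ico (m : ℝ) (m + 1) ∩ Ico (m : ℝ) (c + 1) = Ico (m : ℝ) (c + 1) := by
    rw [Ico_inter_Ico, max_self, min_eq_right (by linarith)]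
  have e4 : Ico (m : ℝ) (m + 1) \ Ico (m : ℝ) (c + 1) = Ico (c + 1) (m + 1 : ℝ) := by
    ext x
    simp only [Set.mem_sdiff, mem_Ico, not_and, not_lt]
    constructor
    · rintro ⟨h3, h4⟩
      exact ⟨h4 h3.1, h3.2⟩
    · rintro ⟨h3, h4⟩
      exact ⟨⟨by linarith, h4⟩, fun _ => h3⟩
  have h4 := measure_inter_add_sdiff (μ := (volume : Measure ℝ)) (A ∩ Ico (m : ℝ) (m + 1))
    (measurableSet_Ico (a := (m : ℝ)) (b := c + 1))
  rw [inter_assoc, e3, inter_sdiff_assoc, e4] at h4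
  have h5 : volume (A ∩ Ico (c + 1) (m + 1)) = volume (A ∩ Ico c m) := by
    rw [← volume_tr 1 (A ∩ Ico c m), tr_inter, tr_Ico]
    have := Per.tr_int hA 1
    push_cast at this
    rw [this]
  have h6 : volume (A ∩ Ico (m : ℝ) (m + 1)) = volume (A ∩ Ico 0 1) := by
    rw [← volume_tr m (A ∩ Ico 0 1), tr_inter, tr_Ico, Per.tr_int hA m, zero_add, add_comm 1]
  rw [← h3, ← h6, ← h4, h5, add_comm]

theorem vol_Icc (A : Set ℝ) : volume (A ∩ Icc 0 1) = volume (A ∩ Ico 0 1) := by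
  apply le_antisymm
  · calc volume (A ∩ Icc 0 1) ≤ volume ((A ∩ Ico 0 1) ∪ {1}) := by
          apply measure_mono
          rintro x ⟨h1, h2, h3⟩
          rcases h3.lt_or_eq with h | h
          · exact Or.inl ⟨h1, h2, h⟩
          · exact Or.inr h
      _ ≤ volume (A ∩ Ico 0 1) + volume {(1 : ℝ)} := measure_union_le _ _
      _ = volume (A ∩ Ico 0 1) := by simp
  · exact measure_mono (inter_subset_inter_right _ Ico_subset_Icc_self)

theorem Per.vol_tr {A : Set ℝ} (hA : Per A) (t : ℝ) :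
    volume (tr t A ∩ Icc 0 1) = volume (A ∩ Icc 0 1) := by
  rw [vol_Icc, vol_Icc, ← Per.vol_Ico hA (-t), ← volume_tr t (A ∩ Ico (-t) (-t + 1)), tr_inter,
    tr_Ico]
  congr 2
  · congr 1 <;> ring

/-- A periodic set is null as soon as it is null in the unit interval. -/
theorem Per.null {A : Set ℝ} (hA : Per A) (h : volume (A ∩ Icc 0 1) = 0) : volume A = 0 := by
  have h1 : A ⊆ ⋃ m : ℤ, tr m (A ∩ Icc 0 1) := by
    intro x hx
    rw [mem_iUnion]
    refine ⟨⌊x⌋, ?_⟩
    rw [mem_tr]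
    refine ⟨?_, ?_, ?_⟩
    · have := Per.int hA ⌊x⌋ (x - ⌊x⌋)
      rw [sub_add_cancel] at this
      exact this.mp hx
    · have := Int.floor_le x
      linarith
    · have := Int.lt_floor_add_one x
      linarith
  refine measure_mono_null h1 ?_
  rw [measure_iUnion_null_iff]
  intro m
  rw [volume_tr]
  exact h

/-- The finite set of lattice vectors. -/
noncomputable def sq (H : ℕ) : Finset (ℤ × ℤ) := Finset.Icc (-(H : ℤ)) H ×ˢ Finset.Icc (-(H : ℤ)) H

theorem mem_sq {H : ℕ} {v : ℤ × ℤ} : v ∈ sq H ↔ InSq H v := by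
  simp only [sq, Finset.mem_product, Finset.mem_Icc, InSq, abs_le]

theorem card_sq (H : ℕ) : (sq H).card = (2 * H + 1) ^ 2 := by
  simp only [sq, Finset.card_product, Int.card_Icc]
  have : ((H : ℤ) + 1 - -(H : ℤ)).toNat = 2 * H + 1 := by omega
  rw [this]
  ring

theorem Lf_sub (a₁ a₂ : ℝ) (v v' : ℤ × ℤ) : Lf a₁ a₂ (v - v') = Lf a₁ a₂ v - Lf a₁ a₂ v' := by
  simp only [Lf, Prod.fst_sub, Prod.snd_sub]
  push_cast
  ring

theorem InSq.sub {H S : ℕ} (hH : 2 * H ≤ S) {v v' : ℤ × ℤ} (h : InSq H v) (h' : InSq H v') :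
    InSq S (v - v') := by
  have h1 := abs_le.mp h.1
  have h2 := abs_le.mp h.2
  have h3 := abs_le.mp h'.1
  have h4 := abs_le.mp h'.2
  have hH' : (2 * H : ℤ) ≤ S := by exact_mod_cast hH
  refine ⟨?_, ?_⟩
  · simp only [Prod.fst_sub]
    rw [abs_le]
    constructor <;> linarith
  · simp only [Prod.snd_sub]
    rw [abs_le]
    constructor <;> linarith

/-- The floor of `N z` is locally constant off the grid. -/
theorem floor_nhds {N : ℕ} (hN : 1 ≤ N) {x : ℝ} (hx : ∀ m : ℤ, x ≠ (m : ℝ) / N) :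
    ∀ᶠ y in 𝓝 x, ⌊(N : ℝ) * y⌋ = ⌊(N : ℝ) * x⌋ := by
  have hN' : (0 : ℝ) < N := by exact_mod_cast hN
  have h1 : ((⌊(N : ℝ) * x⌋ : ℤ) : ℝ) < N * x := by
    refine lt_of_le_of_ne (Int.floor_le _) fun h => hx ⌊(N : ℝ) * x⌋ ?_
    rw [h]
    field_simp
  have h2 := Int.lt_floor_add_one ((N : ℝ) * x)
  have h3 : Tendsto (fun y : ℝ => (N : ℝ) * y) (𝓝 x) (𝓝 ((N : ℝ) * x)) :=
    (continuous_const.mul continuous_id).tendsto x
  filter_upwards [h3.eventually (lt_mem_nhds h1), h3.eventually (gt_mem_nhds h2)] with y hy1 hy2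
  exact Int.floor_eq_iff.mpr ⟨hy1.le, hy2⟩

/-- Intersections of a regular open set with a family of cells. -/
theorem cell_reg {N : ℕ} (hN : 1 ≤ N) {A : Set ℝ} (hA : interior (closure A) = A)
    (hg : ∀ m : ℤ, (m : ℝ) / N ∉ closure A) (R : ℤ → Prop) :
    closure (A ∩ {z | R ⌊(N : ℝ) * z⌋}) = closure A ∩ {z | R ⌊(N : ℝ) * z⌋} ∧
      interior (closure (A ∩ {z | R ⌊(N : ℝ) * z⌋})) = A ∩ {z | R ⌊(N : ℝ) * z⌋} := by
  have hloc : ∀ x ∈ closure A, ∀ᶠ y in 𝓝 x, (R ⌊(N : ℝ) * y⌋ ↔ R ⌊(N : ℝ) * x⌋) := by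
    intro x hx
    have h1 := floor_nhds hN (x := x) fun m hm => hg m (hm ▸ hx)
    filter_upwards [h1] with y hy
    rw [hy]
  have h1 : closure (A ∩ {z | R ⌊(N : ℝ) * z⌋}) = closure A ∩ {z | R ⌊(N : ℝ) * z⌋} := by
    apply Subset.antisymm
    · intro x hx
      have hxA : x ∈ closure A := closure_mono inter_subset_left hx
      refine ⟨hxA, ?_⟩
      have h2 := mem_closure_iff_frequently.mp hx
      obtain ⟨y, hy1, hy2⟩ := (h2.and_eventually (hloc x hxA)).exists
      exact hy2.mp hy1.2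
    · rintro x ⟨hxA, hxR⟩
      rw [mem_closure_iff_frequently] at hxA ⊢
      have hxA' := mem_closure_iff_frequently.mpr hxA
      refine (hxA.and_eventually (hloc x hxA')).mono fun y hy => ⟨hy.1, hy.2.mpr hxR⟩
  refine ⟨h1, ?_⟩
  rw [h1]
  apply Subset.antisymm
  · intro x hx
    have h2 : x ∈ interior (closure A) := interior_mono inter_subset_left hx
    rw [hA] at h2
    exact ⟨h2, (interior_subset hx).2⟩
  · rintro x ⟨hxA, hxR⟩
    have h2 : x ∈ interior (closure A) := by rw [hA]; exact hxA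
    rw [mem_interior_iff_mem_nhds] at h2 ⊢
    filter_upwards [h2, hloc x (subset_closure hxA)] with y hy1 hy2
    exact ⟨hy1, hy2.mpr hxR⟩

end PatReg

open PatReg

theorem Pat_regular (a₁ a₂ : ℝ) (S N H : ℕ) (V Z : ℕ → Set ℝ) (hS : SeedSys a₁ a₂ S N V Z)
    (hH : 2 * H ≤ S) (Rel : ℤ → ℤ × ℤ → Prop) (hRel : ∀ c v, Rel (c + N) v ↔ Rel c v) :
    Per (Pat a₁ a₂ N H Z Rel) ∧
    interior (closure (Pat a₁ a₂ N H Z Rel)) = Pat a₁ a₂ N H Z Rel ∧
    volume (frontier (Pat a₁ a₂ N H Z Rel)) = 0 ∧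
    volume (Pat a₁ a₂ N H Z Rel ∩ Icc 0 1) ≤ (2 * H + 1) ^ 2 * volume (V 0 ∩ Icc 0 1) := by
  -- decreasing neighbourhoods
  have hVs : ∀ k, V (k + 1) ⊆ V k := fun k => subset_closure.trans (hS.Vclosure k)
  have hV0 : ∀ k, V k ⊆ V 0 := by
    intro k
    induction k with
    | zero => exact Subset.rfl
    | succ k ih => exact (hVs k).trans ih
  have hgrid : ∀ k, ∀ m : ℤ, (m : ℝ) / N ∉ closure (Z k) := fun k m hm =>
    hS.grid m (subset_closure (hV0 k (hS.ZV k hm)))
  -- pieces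
  let E' : ℕ → ℤ × ℤ → Set ℝ := fun k v => tr (Lf a₁ a₂ v) (Z k ∩ {z | Rel ⌊(N : ℝ) * z⌋ v})
  let E : ℕ → Set ℝ := fun k => ⋃ v : sq H, E' k v
  let O : ℕ → Set ℝ := fun k => ⋃ v : sq H, tr (Lf a₁ a₂ v) (V k)
  have hPat : Pat a₁ a₂ N H Z Rel = ⋃ k, E k := by
    ext x
    simp only [Pat, mem_ofPred_eq, mem_iUnion, E, E', mem_tr, mem_inter_iff, Subtype.exists,
      exists_prop, mem_sq]
    constructor
    · rintro ⟨k, z, hz, v, hv, hr, rfl⟩
      exact ⟨k, v, hv, by simpa using hz, by simpa using hr⟩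
    · rintro ⟨k, v, hv, hz, hr⟩
      exact ⟨k, x - Lf a₁ a₂ v, hz, v, hv, hr, by simp⟩
  have hcell := fun k v => cell_reg hS.hN (hS.Zreg k) (hgrid k) (fun c => Rel c v)
  have hclE' : ∀ k v, closure (E' k v) ⊆ tr (Lf a₁ a₂ v) (closure (Z k)) := by
    intro k v x hx
    rw [closure_tr, mem_tr] at hx
    rw [mem_tr]
    exact closure_mono inter_subset_left hx
  have hE'reg : ∀ k v, interior (closure (E' k v)) = E' k v := by
    intro k v
    simp only [E']
    rw [closure_tr, interior_tr, (hcell k v).2]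
  have hE'fr : ∀ k v, volume (frontier (E' k v)) = 0 := by
    intro k v
    simp only [E']
    rw [frontier_tr, volume_tr]
    refine measure_mono_null ?_ (hS.Zfr k)
    intro x hx
    have h1 : IsOpen (Z k ∩ {z | Rel ⌊(N : ℝ) * z⌋ v}) := by
      rw [← (hcell k v).2]
      exact isOpen_interior
    have h2 : IsOpen (Z k) := by
      rw [← hS.Zreg k]
      exact isOpen_interior
    rw [h1.frontier_eq, (hcell k v).1] at hx
    rw [h2.frontier_eq]
    exact ⟨hx.1.1, fun h => hx.2 ⟨h, hx.1.2⟩⟩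
  have hclE : ∀ k, closure (E k) = ⋃ v : sq H, closure (E' k v) := fun k =>
    closure_iUnion_of_finite _
  have hEreg : ∀ k, interior (closure (E k)) = E k := by
    intro k
    refine top_finite (fun v : sq H => E' k v) (fun v => hE'reg k v) ?_
    rintro ⟨v, hv⟩ ⟨v', hv'⟩ hvv
    rw [Set.disjoint_left]
    intro x hx hx'
    have h1 := hclE' k v hx
    have h2 := hclE' k v' hx'
    rw [mem_tr] at h1 h2
    apply hS.sep k _ h1 (v - v')
    · intro h
      apply hvv
      rw [sub_eq_zero] at h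
      exact Subtype.ext h
    · exact InSq.sub hH (mem_sq.mp hv) (mem_sq.mp hv')
    · rw [Lf_sub]
      convert h2 using 1
      ring
  have hEfr : ∀ k, volume (frontier (E k)) = 0 := by
    intro k
    refine measure_mono_null (t := ⋃ v : sq H, frontier (E' k v)) ?_ ?_
    · intro x hx
      have h1 : IsOpen (E k) := by
        rw [← hEreg k]
        exact isOpen_interior
      rw [h1.frontier_eq, hclE] at hx
      obtain ⟨hx1, hx2⟩ := hx
      rw [mem_iUnion] at hx1 ⊢
      obtain ⟨v, hv⟩ := hx1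
      refine ⟨v, ?_⟩
      have h2 : IsOpen (E' k v) := by
        rw [← hE'reg k v]
        exact isOpen_interior
      rw [h2.frontier_eq]
      refine ⟨hv, fun h => hx2 ?_⟩
      exact mem_iUnion.mpr ⟨v, h⟩
    · rw [measure_iUnion_null_iff]
      exact fun v => hE'fr k v
  have hEO : ∀ k, closure (E k) ⊆ O k := by
    intro k
    rw [hclE]
    refine iUnion_mono fun v => ?_
    intro x hx
    have := hclE' k v hx
    rw [mem_tr] at this ⊢
    exact hS.ZV k this
  have hdis : ∀ k, Disjoint (closure (E k)) (O (k + 1)) := by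
    intro k
    rw [Set.disjoint_left]
    intro x hx hx'
    rw [hclE, mem_iUnion] at hx
    obtain ⟨⟨v, hv⟩, hx⟩ := hx
    simp only [O, mem_iUnion] at hx'
    obtain ⟨⟨v', hv'⟩, hx'⟩ := hx'
    have h1 := hclE' k v hx
    rw [mem_tr] at h1 hx'
    apply hS.far k _ h1 (v - v') (InSq.sub hH (mem_sq.mp hv) (mem_sq.mp hv'))
    rw [Lf_sub]
    convert hx' using 1
    ring
  have hO : ∀ k, closure (O (k + 1)) ⊆ O k := by
    intro k
    simp only [O]
    rw [closure_iUnion_of_finite]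
    refine iUnion_mono fun v => ?_
    rw [closure_tr]
    intro x hx
    rw [mem_tr] at hx ⊢
    exact hS.Vclosure k hx
  have hOvol : ∀ k, volume (O k ∩ Icc 0 1) ≤ (2 * H + 1) ^ 2 * volume (V k ∩ Icc 0 1) := by
    intro k
    calc volume (O k ∩ Icc 0 1) = volume (⋃ v : sq H, (tr (Lf a₁ a₂ v) (V k) ∩ Icc 0 1)) := by
          simp only [O]
          rw [iUnion_inter]
      _ ≤ ∑ v : sq H, volume (tr (Lf a₁ a₂ v) (V k) ∩ Icc 0 1) := measure_iUnion_fintype_le _ _
      _ = ∑ v : sq H, volume (V k ∩ Icc 0 1) := by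
          refine Finset.sum_congr rfl fun v _ => ?_
          exact Per.vol_tr (hS.Vper k) _
      _ = (2 * H + 1) ^ 2 * volume (V k ∩ Icc 0 1) := by
          rw [Finset.sum_const, Finset.card_univ, Fintype.card_coe, card_sq, nsmul_eq_mul]
          push_cast
          ring
  have hOper : ∀ k, Per (O k) := by
    intro k x
    simp only [O, mem_iUnion, mem_tr]
    refine exists_congr fun v => ?_
    rw [← hS.Vper k (x - Lf a₁ a₂ v)]
    rw [show x + 1 - Lf a₁ a₂ v = x - Lf a₁ a₂ v + 1 by ring]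
  have hnull : volume (⋂ k, O k) = 0 := by
    apply Per.null
    · intro x
      simp only [mem_iInter]
      exact forall_congr' fun k => hOper k x
    · have h1 : Tendsto (fun k => ((2 * H + 1) ^ 2 : ENNReal) * volume (V k ∩ Icc 0 1)) atTop
          (𝓝 ((2 * H + 1) ^ 2 * 0)) := by
        refine ENNReal.Tendsto.const_mul hS.Vtend (Or.inr ?_)
        exact_mod_cast ENNReal.natCast_ne_top _
      rw [mul_zero] at h1
      refine le_antisymm (ge_of_tendsto' h1 fun k => ?_) bot_le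
      refine le_trans (measure_mono ?_) (hOvol k)
      exact inter_subset_inter_left _ (iInter_subset _ k)
  have htop := top_layers E O hEreg hEfr hEO hdis hO hnull
  rw [hPat]
  refine ⟨?_, htop.1, htop.2, ?_⟩
  · intro x
    simp only [mem_iUnion, E, E', mem_tr, mem_inter_iff, mem_ofPred_eq]
    refine exists_congr fun k => exists_congr fun v => ?_
    rw [show x + 1 - Lf a₁ a₂ v = x - Lf a₁ a₂ v + 1 by ring, hS.Zper k]
    refine and_congr_right fun _ => ?_
    rw [mul_add, mul_one, show (N : ℝ) * (x - Lf a₁ a₂ v) + N = (N : ℝ) * (x - Lf a₁ a₂ v) + (N : ℤ) by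
      push_cast; rfl, Int.floor_add_intCast]
    exact hRel _ _
  · refine le_trans (measure_mono ?_) (hOvol 0)
    refine inter_subset_inter_left _ (iUnion_subset fun k => ?_)
    intro x hx
    have h1 := hEO k (subset_closure hx)
    simp only [O, mem_iUnion] at h1 ⊢
    obtain ⟨v, hv⟩ := h1
    exact ⟨v, by rw [mem_tr] at hv ⊢; exact hV0 k hv⟩

end GB
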